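import Mathlib
import Pool.Agent.Q64.L.Stmt

/-!
# Finite generation of Weil-étale motivic cohomology: the statement
-/

set_option autoImplicit false

namespace Pool.Agent.Q64.M

open Polynomial Pool.Agent.Y156.L Pool.Agent.Q64.L

section weil

variable {K : Type} [Field K] {A : AbelianData K} (Q : ℕ) {Λ : Type} {T R : Λ → RelData A}
  (ρ : ∀ l, Regulator (T l) (R l))

/-- The statement `K^n(Z)`: for all prime numbers `l` and all `i` the regulator from
`H^i(Z, ℚ(n)) ⊗ ℚ_l` to the Galois invariants of the `l`-adic cohomology `H^i(Z, ℚ_l(n))` over an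
algebraic closure is an isomorphism, and the eigenvalue `1` of Frobenius is semisimple. -/
def RegulatorIsoN (n : ℤ) : Prop :=
  ∀ (l : Λ) (i : ℤ), InjectiveN (ρ l) i n ∧ OntoN (ρ l) Q i n ∧ SemisimpleN Q (R l) i n

/-- The statement `K^n(A × Z)`. -/
def RegulatorIsoM (n : ℤ) : Prop :=
  ∀ (l : Λ) (i : ℤ), InjectiveM (ρ l) i n ∧ OntoM (ρ l) Q i n ∧ SemisimpleM Q (R l) i n

/-- All groups `W n i`, `i ∈ ℤ`, are finitely generated: the statement `L^n` for the Weil-étale motivic
cohomology groups `W n i`. -/
def AllFG (W : ℤ → ℤ → Type) [∀ n i, AddCommGroup (W n i)] (n : ℤ) : Prop :=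
  ∀ i : ℤ, AddGroup.FG (W n i)

/-- The theorem of Geisser for a smooth projective variety of dimension `d` with the statements
`Kn n = K^n` and the Weil-étale motivic cohomology groups `W n i`: `K^n` and `K^(d - n)` imply `L^n`,
and `L^n` implies `K^n`. -/
structure GeisserTheorem (Kn : ℤ → Prop) (d : ℤ) (W : ℤ → ℤ → Type)
    [∀ n i, AddCommGroup (W n i)] : Prop where
  fg : ∀ n, Kn n → Kn (d - n) → AllFG W n
  iso : ∀ n, AllFG W n → Kn n

end weil

/-- `WeilEtaleReduces P q F`: let `A` be an abelian variety as in `IsAbelian`, over the field with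
`Q = q ^ s` elements, and `Z` a smooth projective variety of dimension `d` over this field. Let
`T l`, `R l` be the motivic cohomology, tensored with `ℚ_l`, and the `l`-adic cohomology of `Z` and
`A × Z`, with the regulators `ρ l`, for all prime numbers `l`; the Frobenius endomorphism of `Z`
satisfies polynomials with the property `P`. Let `WN n i` and `WM n i` be the Weil-étale motivic
cohomology groups of `Z` and of `A × Z`. Then for every `n`: the groups `WM m i` are finitely
generated for all `i` and for `m = n` and `m = dim A + d - n`, if and only if the groups `WN m i` are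
finitely generated for all `i` and for `m = n - k` and `m = d - (n - k)`, `0 ≤ k ≤ dim A`. -/
def WeilEtaleReduces (P : ℚ[X] → Prop) (q : ℕ) {I : Type} (F : I → ℤ[X]) : Prop :=
  ∀ (K : Type) [Field K] [CharZero K] (A : AbelianData K) (s : ℕ), IsAbelian A q s F →
    ∀ (Λ : Type) (T R : Λ → RelData A) (ρ : ∀ l, Regulator (T l) (R l)),
      (∀ l, IsTheory P (q ^ s) (T l) ∧ (T l).IsPure (q ^ s) ∧ IsTheory P (q ^ s) (R l) ∧
        IsRegulator (ρ l)) →
      ∀ (d : ℤ) (WN WM : ℤ → ℤ → Type) [∀ n i, AddCommGroup (WN n i)]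
        [∀ n i, AddCommGroup (WM n i)],
        GeisserTheorem (RegulatorIsoN (q ^ s) ρ) d WN →
        GeisserTheorem (RegulatorIsoM (q ^ s) ρ) (A.dim + d) WM → ∀ n : ℤ,
          (AllFG WM n ∧ AllFG WM (A.dim + d - n)) ↔
            ∀ k : ℕ, k ≤ A.dim → AllFG WN (n - k) ∧ AllFG WN (d - (n - k))

end Pool.Agent.Q64.M
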