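import Mathlib
import Pool.Agent.Q64.L.Thms
import Pool.Agent.Q64.M.FgDefs

/-!
# Finite generation of Weil-étale motivic cohomology: the theorem
-/

set_option autoImplicit false
set_option linter.unusedSectionVars false

namespace Pool.Agent.Q64.M

open Module Polynomial Pool.Agent.Y156.L Pool.Agent.Q64.L

variable {P : ℚ[X] → Prop} {q : ℕ} (hq : 1 < q) {I : Type} {F : I → ℤ[X]} (hG : Good P q F)

include hq hG

theorem regulatorIso_iff {K : Type} [Field K] [CharZero K] {A : AbelianData K} {s : ℕ}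
    (hA : IsAbelian A q s F) {Λ : Type} {T R : Λ → RelData A}
    {ρ : ∀ l, Regulator (T l) (R l)} (h : ∀ l, IsTheory P (q ^ s) (T l) ∧
      (T l).IsPure (q ^ s) ∧ IsTheory P (q ^ s) (R l) ∧ IsRegulator (ρ l)) (n : ℤ) :
    RegulatorIsoM (q ^ s) ρ n ↔ ∀ k : ℕ, k ≤ A.dim → RegulatorIsoN (q ^ s) ρ (n - k) := by
  obtain ⟨J, hJ, c, D, hF, h1, h2⟩ := exists_main hq hG hA
  have h3 : ∀ (l : Λ) (i : ℤ), (InjectiveM (ρ l) i n ∧ OntoM (ρ l) (q ^ s) i n ∧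
      SemisimpleM (q ^ s) (R l) i n) ↔ ∀ k : ℕ, k ≤ A.dim →
        (InjectiveN (ρ l) (i - 2 * k) (n - k) ∧ OntoN (ρ l) (q ^ s) (i - 2 * k) (n - k) ∧
          SemisimpleN (q ^ s) (R l) (i - 2 * k) (n - k)) := by
    intro l i
    obtain ⟨hT, hp, hR, hρ⟩ := h l
    obtain ⟨-, h4, h5⟩ := h1 (R l) hR.rel hR.degree hR.eigenvalues
    obtain ⟨-, h7⟩ := h2 (T l) hT.rel hT.degree hT.eigenvalues hp
    rw [h7 (R l) (ρ l) hρ, h5 (T l) (ρ l) hT.rel hρ, h4, forall_and₂, forall_and₂]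
  unfold RegulatorIsoM RegulatorIsoN
  constructor
  · intro h4 k hk l i
    have h5 := (h3 l (i + 2 * k)).1 (h4 l _) k hk
    rwa [add_sub_cancel_right] at h5
  · intro h4 l i
    exact (h3 l i).2 fun k hk => h4 k hk l _

theorem weilEtaleReduces : WeilEtaleReduces P q F := by
  intro K _ _ A s hA Λ T R ρ h d WN WM _ _ hN hM n
  have key := fun n => regulatorIso_iff hq hG hA h n
  have hLM : ∀ n, (AllFG WM n ∧ AllFG WM (A.dim + d - n)) ↔
      (RegulatorIsoM (q ^ s) ρ n ∧ RegulatorIsoM (q ^ s) ρ (A.dim + d - n)) := fun n =>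
    ⟨fun h => ⟨hM.iso _ h.1, hM.iso _ h.2⟩, fun h => ⟨hM.fg _ h.1 h.2, hM.fg _ h.2 (by
      rw [sub_sub_cancel]; exact h.1)⟩⟩
  have hLN : ∀ n, (AllFG WN n ∧ AllFG WN (d - n)) ↔
      (RegulatorIsoN (q ^ s) ρ n ∧ RegulatorIsoN (q ^ s) ρ (d - n)) := fun n =>
    ⟨fun h => ⟨hN.iso _ h.1, hN.iso _ h.2⟩, fun h => ⟨hN.fg _ h.1 h.2, hN.fg _ h.2 (by
      rw [sub_sub_cancel]; exact h.1)⟩⟩
  rw [hLM, key, key]
  simp only [hLN]
  constructor
  · rintro ⟨h1, h2⟩ k hk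
    refine ⟨h1 k hk, ?_⟩
    have h3 := h2 (A.dim - k) (Nat.sub_le _ _)
    rw [Nat.cast_sub hk] at h3
    rwa [show (A.dim : ℤ) + d - n - (A.dim - k) = d - (n - k) by ring] at h3
  · intro h1
    refine ⟨fun k hk => (h1 k hk).1, fun k hk => ?_⟩
    have h3 := (h1 (A.dim - k) (Nat.sub_le _ _)).2
    rw [Nat.cast_sub hk] at h3
    rwa [show d - (n - ((A.dim : ℤ) - k)) = A.dim + d - n - k by ring] at h3

end Pool.Agent.Q64.M
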