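import Mathlib

/-!
# Numerical identities which are sums over a finite family of shifts
-/

set_option autoImplicit false

namespace Pool.Agent.Q64.M

/-- If the numbers `aM j`, `bM j` are the sums of the numbers `aN (j - c t)`, `bN (j - c t)`, some
`c t` is zero, and `aN j = bN j` for small `j`, then `aM j = bM j` for all `j ≤ n` if and only if
`aN j = bN j` for all `j ≤ n`. -/
theorem top_down {J : Type} [Fintype J] (c : J → ℕ) (t0 : J) (ht0 : c t0 = 0)
    (FN FM : ℤ → Prop) (aN bN aM bM : ℤ → ℤ) (hF : ∀ j, FM j ↔ ∀ t, FN (j - c t))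
    (ha : ∀ j, FM j → aM j = ∑ t, aN (j - c t)) (hb : ∀ j, bM j = ∑ t, bN (j - c t))
    (j0 : ℤ) (hlow : ∀ j, j < j0 → FN j ∧ aN j = bN j) (n : ℤ) :
    (∀ j, j ≤ n → FM j ∧ aM j = bM j) ↔ ∀ j, j ≤ n → FN j ∧ aN j = bN j := by
  classical
  constructor
  · intro hM
    have key : ∀ k : ℕ, ∀ j : ℤ, j < j0 + k → j ≤ n → FN j ∧ aN j = bN j := by
      intro k
      induction k with
      | zero =>
        intro j hj _
        exact hlow j (by simpa using hj)
      | succ k ih =>
        intro j hj hjn
        by_cases hjk : j < j0 + k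
        · exact ih j hjk hjn
        obtain ⟨h1, h2⟩ := hM j hjn
        have h3 := (hF j).1 h1
        have h4 : FN j := by
          have := h3 t0
          rwa [ht0, Nat.cast_zero, sub_zero] at this
        refine ⟨h4, ?_⟩
        rw [ha j h1, hb j] at h2
        have h5 : ∑ t, (aN (j - c t) - bN (j - c t)) = 0 := by
          rw [Finset.sum_sub_distrib, h2, sub_self]
        have h6 : ∀ t, aN (j - c t) - bN (j - c t) = if c t = 0 then aN j - bN j else 0 := by
          intro t
          by_cases ht : c t = 0
          · rw [if_pos ht, ht, Nat.cast_zero, sub_zero]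
          · rw [if_neg ht]
            have h7 : 0 < c t := Nat.pos_of_ne_zero ht
            have h8 := (ih (j - c t) (by push_cast at hj; omega) (by omega)).2
            rw [h8, sub_self]
        rw [Finset.sum_congr rfl fun t _ => h6 t, Finset.sum_ite, Finset.sum_const,
          Finset.sum_const_zero, add_zero, nsmul_eq_mul, mul_eq_zero] at h5
        rcases h5 with h5 | h5
        · exfalso
          have h7 : (Finset.univ.filter fun t => c t = 0).card = 0 := by exact_mod_cast h5
          rw [Finset.card_eq_zero] at h7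
          have h8 : t0 ∈ Finset.univ.filter fun t => c t = 0 := by simp [ht0]
          rw [h7] at h8
          exact absurd h8 (Finset.notMem_empty _)
        · exact sub_eq_zero.1 h5
    intro j hj
    exact key (j - j0 + 1).toNat j (by omega) hj
  · intro hN j hj
    have h1 : ∀ t, FN (j - c t) ∧ aN (j - c t) = bN (j - c t) := fun t => hN _ (by omega)
    have h2 : FM j := (hF j).2 fun t => (h1 t).1
    refine ⟨h2, ?_⟩
    rw [ha j h2, hb j]
    exact Finset.sum_congr rfl fun t _ => (h1 t).2

/-- The alternating sum of a function with finite support. -/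
noncomputable def altSum (f : ℤ → ℤ) : ℤ := ∑ᶠ i, (Int.negOnePow i : ℤ) * f i

theorem support_alt (f : ℤ → ℤ) :
    (Function.support fun i : ℤ => (Int.negOnePow i : ℤ) * f i) = Function.support f := by
  ext i
  simp only [Function.mem_support, ne_eq, mul_eq_zero, not_or]
  refine ⟨fun h => h.2, fun h => ⟨?_, h⟩⟩
  exact Units.ne_zero _

theorem altSum_shift (f : ℤ → ℤ) (c : ℕ) : altSum (fun i => f (i - 2 * c)) = altSum f := by
  unfold altSum
  refine Eq.trans ?_ (finsum_comp_equiv (Equiv.subRight (2 * (c : ℤ)))
    (f := fun i : ℤ => (Int.negOnePow i : ℤ) * f i))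
  refine finsum_congr fun i => ?_
  rw [Equiv.subRight_apply, Int.negOnePow_sub, Int.negOnePow_two_mul, mul_one]

theorem altSum_sum {J : Type} [Fintype J] (c : J → ℕ) (f : J → ℤ → ℤ)
    (hf : ∀ t, (Function.support (f t)).Finite) :
    altSum (fun i => ∑ t, f t (i - 2 * c t)) = ∑ t, altSum (f t) := by
  have h1 : ∀ t, altSum (fun i => f t (i - 2 * c t)) = altSum (f t) := fun t =>
    altSum_shift (f t) (c t)
  rw [← Finset.sum_congr rfl fun t _ => h1 t]
  unfold altSum
  rw [← finsum_sum_comm]
  · refine finsum_congr fun i => ?_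
    rw [Finset.mul_sum]
  · intro t _
    change (Function.support fun i : ℤ => (Int.negOnePow i : ℤ) * f t (i - 2 * c t)).Finite
    rw [support_alt (fun i => f t (i - 2 * c t))]
    refine (hf t).preimage (f := fun i : ℤ => i - 2 * c t) ?_
    intro x _ y _ hxy
    exact sub_left_injective hxy

end Pool.Agent.Q64.M
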