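import Mathlib
import Pool.Agent.Q64.L.RankDefs
import Pool.Agent.Q64.L.Stmt
import Pool.Agent.Q64.M.TopDown

/-!
# The order of the zeta function and the ranks of higher Chow groups: the statements
-/

set_option autoImplicit false

namespace Pool.Agent.Q64.M

open Polynomial Pool.Agent.Y156.L Pool.Agent.Q64.L

section

variable {K : Type} [Field K] {A : AbelianData K} (Q : ℕ) (T R : RelData A) (L : Type) [Field L]

/-- The ranks of the groups `CH_n(X, i)` (the group `T.grN (-(2 n + i)) (-n)` is `CH_n(X, i)_ℚ`) are
finite, and zero for all but finitely many `i`. -/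
def FiniteRanksN (n : ℤ) : Prop :=
  (∀ i : ℤ, Module.Finite ℚ (T.grN i (-n))) ∧ {i : ℤ | T.grN i (-n) ≠ ⊥}.Finite

/-- The same for `A × X`: the group `T.grM (2 dim A - (2 n + i)) (dim A - n)` is
`CH_n(A × X, i)_ℚ`. -/
def FiniteRanksM (n : ℤ) : Prop :=
  (∀ i : ℤ, Module.Finite ℚ (T.grM i (A.dim - n))) ∧ {i : ℤ | T.grM i (A.dim - n) ≠ ⊥}.Finite

/-- The conjecture of Bloch and Soule for `X` at `s = n`: the ranks of the groups `CH_n(X, i)` are
finite, and zero for all but finitely many `i`, and their alternating sum is the alternating sum of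
the multiplicities of the eigenvalue `Q ^ (-n)` of Frobenius on the homology groups `H_a(X)` (the
order of the pole of the zeta function of `X` at `s = n`). -/
def OrderFormulaN [Module L R.N] (n : ℤ) : Prop :=
  FiniteRanksN T n ∧ altSum (fun i => Module.finrank ℚ (T.grN (-(2 * n + i)) (-n))) =
    altSum fun a => multN Q R L (-a) (-n)

/-- The conjecture of Bloch and Soule for `A × X` at `s = n`. -/
def OrderFormulaM [Module L R.M] (n : ℤ) : Prop :=
  FiniteRanksM T n ∧
    altSum (fun i => Module.finrank ℚ (T.grM (2 * A.dim - (2 * n + i)) (A.dim - n))) =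
    altSum fun a => multM Q R L (2 * A.dim - a) (A.dim - n)

/-- Finiteness of the dimension of `X`: there are no cycles and no eigenvalues `Q ^ (-n)` of Frobenius
if `n` is larger than the dimension of `X`, and only finitely many of the homology groups of `X` are
different from zero. -/
structure IsFiniteDimensional : Prop where
  bounded : ∃ e : ℤ, ∀ n : ℤ, e < n → (∀ i x, T.DegN i (-n) x → x = 0) ∧
    ∀ i x, GenN Q R i (-n) x → x = 0
  finite : ∀ j : ℤ, {i : ℤ | ∃ x, R.DegN i j x ∧ x ≠ 0}.Finite

end

/-- `OrderReduces P q F`: let `A` be an abelian variety as in `IsAbelian`, over the field with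
`Q = q ^ s` elements, and `X` any separated scheme of finite type over this field. Let `T` be the
higher Chow groups of `X` and `A × X` with rational coefficients, and `R` their `ℓ`-adic homology,
tensored with a field `L`. If the Frobenius endomorphism of `X` satisfies on these groups polynomials
with the property `P`, then for every integer `N` the conjecture of Bloch and Soule is true for
`A × X` at all integers `n ≥ N + dim A` if and only if it is true for `X` at all `n ≥ N`. -/
def OrderReduces (P : ℚ[X] → Prop) (q : ℕ) {I : Type} (F : I → ℤ[X]) : Prop :=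
  ∀ (K : Type) [Field K] [CharZero K] (A : AbelianData K) (s : ℕ), IsAbelian A q s F →
    ∀ (T R : RelData A) (L : Type) [Field L] [CharZero L] [Module L R.N] [Module L R.M],
      IsTheory P (q ^ s) T → T.IsPure (q ^ s) → IsTheory P (q ^ s) R → IsLinear R L →
      FiniteEig (q ^ s) R L → IsFiniteDimensional (q ^ s) T R → ∀ N : ℤ,
        (∀ n : ℤ, N + A.dim ≤ n → OrderFormulaM (q ^ s) T R L n) ↔
          ∀ n : ℤ, N ≤ n → OrderFormulaN (q ^ s) T R L n

end Pool.Agent.Q64.M
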