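import Mathlib
import Pool.Agent.Q64.L.BB
import Pool.Agent.Q64.M.OrderDefs

/-!
# The order of the zeta function and the ranks of higher Chow groups: the theorem
-/

set_option autoImplicit false
set_option linter.unusedSectionVars false

namespace Pool.Agent.Q64.M

open Module Polynomial Pool.Agent.Y156.L Pool.Agent.Q64.L

theorem altSum_neg (f : ℤ → ℤ) (m : ℤ) : altSum (fun i => f (2 * m - i)) = altSum f := by
  unfold altSum
  refine Eq.trans ?_ (finsum_comp_equiv (Equiv.subLeft (2 * m))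
    (f := fun i : ℤ => (Int.negOnePow i : ℤ) * f i))
  refine finsum_congr fun i => ?_
  rw [Equiv.subLeft_apply, Int.negOnePow_sub, Int.negOnePow_two_mul, one_mul]

theorem equiv_bot {S V W : Type} [Field S] [AddCommGroup V] [AddCommGroup W] [Module S V]
    [Module S W] {J : Type} [Fintype J] {X : Submodule S V} {Y : J → Submodule S W}
    (e : X ≃ₗ[S] (∀ t, Y t)) : X = ⊥ ↔ ∀ t, Y t = ⊥ := by
  classical
  constructor
  · intro h t
    rw [Submodule.eq_bot_iff]
    intro y hy
    have h1 : e.symm (Pi.single t ⟨y, hy⟩) = 0 := by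
      apply Subtype.ext
      exact (Submodule.eq_bot_iff X).1 h _ (e.symm (Pi.single t ⟨y, hy⟩)).2
    have h2 : (Pi.single t ⟨y, hy⟩ : ∀ t, Y t) = 0 := by
      rw [← e.apply_symm_apply (Pi.single t ⟨y, hy⟩), h1, map_zero]
    have h3 := congrFun h2 t
    rw [Pi.single_eq_same] at h3
    exact congrArg Subtype.val h3
  · intro h
    rw [Submodule.eq_bot_iff]
    intro x hx
    have h1 : e ⟨x, hx⟩ = 0 := by
      funext t
      apply Subtype.ext
      exact (Submodule.eq_bot_iff (Y t)).1 (h t) _ (e ⟨x, hx⟩ t).2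
    have h2 : (⟨x, hx⟩ : X) = 0 := by
      rw [← e.symm_apply_apply ⟨x, hx⟩, h1, map_zero]
    exact congrArg Subtype.val h2

variable {K : Type} [Field K] [CharZero K] {A : AbelianData K}

variable {P : ℚ[X] → Prop} {q : ℕ} (hq : 1 < q) {I : Type} {F : I → ℤ[X]} (hG : Good P q F)

include hq hG

theorem orderReduces : OrderReduces P q F := by
  intro K _ _ A s hA T R L _ _ _ _ hT hpure hR hL hfin hbd N
  obtain ⟨J, hJ, c, D, E', hF, h, hQ, hmain⟩ := exists_classes hq hG hA
  have hexpT : ∀ (i j : ℤ), ∀ m ∈ T.grM i j, m = ∑ t, T.times (D t) (T.pair (E' t) m) :=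
    fun i j m hm =>
      (hmain T hT.rel hT.degree hT.eigenvalues i j m (genM_of_inv (hpure i j m hm))).1
  have hexpR : ∀ (i j : ℤ) (m : R.M), GenM (q ^ s) R i j m →
      m = ∑ t, R.times (D t) (R.pair (E' t) m) :=
    fun i j m hm => (hmain R hR.rel hR.degree hR.eigenvalues i j m hm).1
  obtain ⟨t0, ht0⟩ := hF.exists_eq 0 (Nat.zero_le _)
  obtain ⟨⟨e, he⟩, hsupp⟩ := hbd
  -- supports
  have hsuppR : ∀ j : ℤ, (Function.support fun i => (multN (q ^ s) R L i j : ℤ)).Finite := by
    intro j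
    refine (hsupp j).subset fun i hi => ?_
    rw [Function.mem_support] at hi
    by_contra h1
    apply hi
    have h2 : eigN (q ^ s) R L i j = ⊥ := by
      rw [eigN, Submodule.span_eq_bot]
      intro x hx
      by_contra h3
      exact h1 ⟨x, hx.1, h3⟩
    rw [multN, h2, finrank_bot, Nat.cast_zero]
  have hsuppT : ∀ j : ℤ, {i : ℤ | T.grN i j ≠ ⊥}.Finite →
      (Function.support fun i => (finrank ℚ (T.grN i j) : ℤ)).Finite := by
    intro j hj
    refine hj.subset fun i hi => ?_
    rw [Function.mem_support] at hi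
    intro h1
    rw [h1, finrank_bot] at hi
    exact hi rfl
  let FN : ℤ → Prop := fun j => (∀ i : ℤ, Module.Finite ℚ (T.grN i j)) ∧
    {i : ℤ | T.grN i j ≠ ⊥}.Finite
  let FM : ℤ → Prop := fun j => (∀ i : ℤ, Module.Finite ℚ (T.grM i j)) ∧
    {i : ℤ | T.grM i j ≠ ⊥}.Finite
  have hFF : ∀ j, FM j ↔ ∀ t, FN (j - c t) := by
    intro j
    have h1 : (∀ i : ℤ, Module.Finite ℚ (T.grM i j)) ↔
        ∀ t, ∀ i : ℤ, Module.Finite ℚ (T.grN i (j - c t)) := by
      constructor
      · intro h2 t i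
        have h3 := (finite_gr h hT.rel hexpT (i + 2 * c t) j).1 (h2 _) t
        rwa [add_sub_cancel_right] at h3
      · intro h2 i
        exact (finite_gr h hT.rel hexpT i j).2 fun t => h2 t _
    have h2 : ∀ i : ℤ, T.grM i j = ⊥ ↔ ∀ t, T.grN (i - 2 * c t) (j - c t) = ⊥ := by
      intro i
      obtain ⟨e'⟩ := equiv_gr h hT.rel hexpT i j
      exact equiv_bot e'
    have h3 : {i : ℤ | T.grM i j ≠ ⊥}.Finite ↔
        ∀ t, {i : ℤ | T.grN i (j - c t) ≠ ⊥}.Finite := by
      constructor
      · intro h4 t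
        refine (h4.image fun i => i - 2 * (c t : ℤ)).subset fun i hi => ?_
        refine ⟨i + 2 * c t, fun h5 => hi ?_, by ring⟩
        have h6 := (h2 _).1 h5 t
        rwa [add_sub_cancel_right] at h6
      · intro h4
        have h5 : {i : ℤ | T.grM i j ≠ ⊥} ⊆
            ⋃ t, (fun i => i - 2 * (c t : ℤ)) ⁻¹' {i : ℤ | T.grN i (j - c t) ≠ ⊥} := by
          intro i hi
          by_contra h6
          apply hi
          rw [h2 i]
          intro t
          by_contra h7
          exact h6 (Set.mem_iUnion.2 ⟨t, h7⟩)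
        refine (Set.finite_iUnion fun t => ?_).subset h5
        exact (h4 t).preimage fun x _ y _ hxy => sub_left_injective hxy
    change (_ ∧ _) ↔ ∀ t, (_ ∧ _)
    rw [h1, h3]
    exact ⟨fun h t => ⟨h.1 t, h.2 t⟩, fun h => ⟨fun t => (h t).1, fun t => (h t).2⟩⟩
  have key := top_down c t0 ht0 FN FM
    (fun j => altSum fun i => (finrank ℚ (T.grN i j) : ℤ))
    (fun j => altSum fun i => (multN (q ^ s) R L i j : ℤ))
    (fun j => altSum fun i => (finrank ℚ (T.grM i j) : ℤ))
    (fun j => altSum fun i => (multM (q ^ s) R L i j : ℤ)) hFF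
    (fun j hj => by
      have h1 := (hFF j).1 hj
      beta_reduce
      rw [← altSum_sum c (fun t i => (finrank ℚ (T.grN i (j - c t)) : ℤ))
        fun t => hsuppT _ (h1 t).2]
      congr 1
      funext i
      rw [finrank_gr h hT.rel hexpT i j fun t => (h1 t).1 _, Nat.cast_sum])
    (fun j => by
      beta_reduce
      rw [← altSum_sum c (fun t i => (multN (q ^ s) R L i (j - c t) : ℤ))
        fun t => hsuppR _]
      congr 1
      funext i
      rw [multM_eq hQ h hR.rel hL hfin hexpR i j, Nat.cast_sum])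
    (-e) (fun j hj => by
      obtain ⟨h1, h2⟩ := he (-j) (by omega)
      rw [neg_neg] at h1 h2
      have h5 : ∀ i, T.grN i j = ⊥ := fun i =>
        (Submodule.eq_bot_iff _).2 fun x hx => h1 i x hx
      have h6 : ∀ i, eigN (q ^ s) R L i j = ⊥ := by
        intro i
        rw [eigN, Submodule.span_eq_bot]
        exact fun x hx => h2 i x hx
      refine ⟨⟨fun i => ?_, ?_⟩, ?_⟩
      · rw [h5]
        infer_instance
      · simp [h5]
      · beta_reduce
        congr 1
        funext i
        rw [multN, h5, h6, finrank_bot, finrank_bot]) (-N)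
  have e1 : ∀ n : ℤ, altSum (fun i => (finrank ℚ (T.grN (-(2 * n + i)) (-n)) : ℤ)) =
      altSum (fun i => (finrank ℚ (T.grN i (-n)) : ℤ)) := by
    intro n
    rw [← altSum_neg (fun i => (finrank ℚ (T.grN i (-n)) : ℤ)) (-n)]
    congr 1
    funext i
    rw [show -(2 * n + i) = 2 * -n - i by ring]
  have e2 : ∀ n : ℤ, altSum (fun a => (multN (q ^ s) R L (-a) (-n) : ℤ)) =
      altSum (fun i => (multN (q ^ s) R L i (-n) : ℤ)) := by
    intro n
    rw [← altSum_neg (fun i => (multN (q ^ s) R L i (-n) : ℤ)) 0]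
    congr 1
    funext i
    rw [show 2 * 0 - i = -i by ring]
  have e3 : ∀ n : ℤ, altSum (fun i =>
      (finrank ℚ (T.grM (2 * A.dim - (2 * n + i)) (A.dim - n)) : ℤ)) =
      altSum (fun i => (finrank ℚ (T.grM i (A.dim - n)) : ℤ)) := by
    intro n
    rw [← altSum_neg (fun i => (finrank ℚ (T.grM i (A.dim - n)) : ℤ)) (A.dim - n)]
    congr 1
    funext i
    rw [show 2 * (A.dim : ℤ) - (2 * n + i) = 2 * (A.dim - n) - i by ring]
  have e4 : ∀ n : ℤ, altSum (fun a => (multM (q ^ s) R L (2 * A.dim - a) (A.dim - n) : ℤ)) =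
      altSum (fun i => (multM (q ^ s) R L i (A.dim - n) : ℤ)) := by
    intro n
    rw [← altSum_neg (fun i => (multM (q ^ s) R L i (A.dim - n) : ℤ)) A.dim]
  have hN : ∀ n : ℤ, OrderFormulaN (q ^ s) T R L n ↔ (FN (-n) ∧
      altSum (fun i => (finrank ℚ (T.grN i (-n)) : ℤ)) =
        altSum (fun i => (multN (q ^ s) R L i (-n) : ℤ))) := by
    intro n
    rw [OrderFormulaN, e1, e2, FiniteRanksN]
  have hM : ∀ n : ℤ, OrderFormulaM (q ^ s) T R L n ↔ (FM (A.dim - n) ∧
      altSum (fun i => (finrank ℚ (T.grM i (A.dim - n)) : ℤ)) =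
        altSum (fun i => (multM (q ^ s) R L i (A.dim - n) : ℤ))) := by
    intro n
    rw [OrderFormulaM, e3, e4, FiniteRanksM]
  simp only [hN, hM]
  constructor
  · intro h1 n hn
    refine key.1 (fun j hj => ?_) (-n) (by omega)
    have h2 := h1 (A.dim - j) (by omega)
    rwa [sub_sub_cancel] at h2
  · intro h1 n hn
    refine key.2 (fun j hj => ?_) (A.dim - n) (by omega)
    have h2 := h1 (-j) (by omega)
    rwa [neg_neg] at h2

end Pool.Agent.Q64.M
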