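import Mathlib
import Pool.Agent.Q64.L.ClDefs
import Pool.Agent.Q64.L.RankDefs
import Pool.Agent.Q64.L.Stmt

/-!
# Arbitrary varieties over finitely generated fields: the statements
-/

set_option autoImplicit false

namespace Pool.Agent.Q64.M

open Polynomial Pool.Agent.Y156.L Pool.Agent.Q64.L

/-- The map from `L ⊗ G` to `V` is onto the space `T` of the Galois invariants, for a group `G` of
classes of cycles. -/
def TateOnto {L : Type} [Field L] {V : Type} [AddCommGroup V] [Module L V] (G : Submodule ℤ V)
    (T : Submodule L V) : Prop :=
  LinearMap.range (naturalMap (L := L) G) = T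

/-- `SingularTateReduces P q F`: let `A` be an abelian variety as in `IsAbelian`, over a finite field
contained in the field `k`, and `X` any variety over `k`. Let `R` be the `ℓ`-adic homology of `X` and
`A × X` over an algebraic closure of `k`, on which the Frobenius element of a place of `k` with
residue field of `q ^ s` elements satisfies polynomials with the property `P`, and let `S` be the
classes of cycles, `S.cycN (-b) = B_b(X)` and `S.cycM (dim A - b) = B_b(A × X)`, and the Galois
invariants, `S.galN (-b)` in `H_(2 b)(X, ℚ_ℓ(b))` and `S.galM (dim A - b)` in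
`H_(2 b)(A × X, ℚ_ℓ(b))`. Then for all `b`: statement (a) of the question (surjectivity) is true for
`A × X` in dimension `b` if and only if it is true for `X` in all the dimensions `b - l`,
`0 ≤ l ≤ dim A`, and the same for statement (b) (finite generation and isomorphism). -/
def SingularTateReduces (P : ℚ[X] → Prop) (q : ℕ) {I : Type} (F : I → ℤ[X]) : Prop :=
  ∀ (K : Type) [Field K] [CharZero K] (A : AbelianData K) (s : ℕ), IsAbelian A q s F →
    ∀ (R : RelData A) (L : Type) [Field L] [CharZero L] [Module L R.N] [Module L R.M],
      IsRel (q ^ s) R → PreservesDegree R → EigenvaluesIn P R → IsLinear R L →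
      ∀ S : ClassData R L, IsClassData S (q ^ s) →
        (∀ (j : ℤ), ∀ n ∈ S.cycN j, n ∈ S.galN j) → ∀ b : ℤ,
        (TateOnto (S.cycM (A.dim - b)) (S.galM (A.dim - b)) ↔
          ∀ l : ℕ, l ≤ A.dim → TateOnto (S.cycN (-(b - l))) (S.galN (-(b - l)))) ∧
        (TateIso (S.cycM (A.dim - b)) (S.galM (A.dim - b)) ↔
          ∀ l : ℕ, l ≤ A.dim → TateIso (S.cycN (-(b - l))) (S.galN (-(b - l))))

section

variable {K : Type} [Field K] {A : AbelianData K} (Q : ℕ) (T R : RelData A) (L : Type) [Field L]

/-- The formula for the order of the pole for `X` in dimension `b`: the group `T.grN (-2 b) (-b)` (the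
classes of cycles of dimension `b` on `X`, with rational coefficients) is finite-dimensional, and its
dimension is the multiplicity of the eigenvalue `Q ^ (-b)` of Frobenius on `R.grN (-2 b) (-b)` (the
order of the pole of `L(X, s)` at `s = b + dim_a(k)`). -/
def PoleFormulaN [Module L R.N] (b : ℤ) : Prop :=
  Module.Finite ℚ (T.grN (-(2 * b)) (-b)) ∧
    Module.finrank ℚ (T.grN (-(2 * b)) (-b)) = multN Q R L (-(2 * b)) (-b)

/-- The formula for the order of the pole for `A × X` in dimension `b`. -/
def PoleFormulaM [Module L R.M] (b : ℤ) : Prop :=
  Module.Finite ℚ (T.grM (2 * A.dim - 2 * b) (A.dim - b)) ∧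
    Module.finrank ℚ (T.grM (2 * A.dim - 2 * b) (A.dim - b)) =
      multM Q R L (2 * A.dim - 2 * b) (A.dim - b)

/-- There are no cycles on `X` and no homology classes of dimension larger than the dimension of
`X`. -/
def BoundedDimension : Prop :=
  ∃ e : ℤ, ∀ b : ℤ, e < b → (∀ n, T.DegN (-(2 * b)) (-b) n → n = 0) ∧
    ∀ n, R.DegN (-(2 * b)) (-b) n → n = 0

end

/-- `PoleReduces P q F`: let `A` be an abelian variety as in `IsAbelian`, over the field with
`Q = q ^ s` elements, `U` a smooth geometrically connected variety over this field with function field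
`k`, and `X` any variety over `k`, which extends to `U`. Let `T` be the classes of cycles on `X` and
`A × X` in the `ℓ`-adic homology, with rational coefficients, and `R` the spaces of the invariants of
the geometric fundamental group of `U` in the `ℓ`-adic homology of `X` and `A × X`, tensored with a
field `L`. If the Frobenius endomorphism satisfies on these groups polynomials with the property `P`,
then for every `n` the formula for the order of the pole is true for `A × X` in all dimensions
`b ≥ n + dim A` if and only if it is true for `X` in all dimensions `b ≥ n`. -/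
def PoleReduces (P : ℚ[X] → Prop) (q : ℕ) {I : Type} (F : I → ℤ[X]) : Prop :=
  ∀ (K : Type) [Field K] [CharZero K] (A : AbelianData K) (s : ℕ), IsAbelian A q s F →
    ∀ (T R : RelData A) (L : Type) [Field L] [CharZero L] [Module L R.N] [Module L R.M],
      IsTheory P (q ^ s) T → T.IsPure (q ^ s) → IsTheory P (q ^ s) R → IsLinear R L →
      FiniteEig (q ^ s) R L → BoundedDimension T R → ∀ n : ℤ,
        (∀ b : ℤ, n + A.dim ≤ b → PoleFormulaM (q ^ s) T R L b) ↔
          ∀ b : ℤ, n ≤ b → PoleFormulaN (q ^ s) T R L b

end Pool.Agent.Q64.M
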