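import Mathlib
import Pool.Agent.Q64.L.Cl
import Pool.Agent.Q64.L.BB
import Pool.Agent.Q64.M.SingDefs
import Pool.Agent.Q64.M.TopDown

/-!
# Arbitrary varieties over finitely generated fields: the theorems
-/

set_option autoImplicit false
set_option linter.unusedSectionVars false

namespace Pool.Agent.Q64.M

open Module Polynomial Pool.Agent.Y156.L Pool.Agent.Q64.L
open scoped TensorProduct

variable {K : Type} [Field K] [CharZero K] {A : AbelianData K}

section onto

variable {R : RelData A} {L : Type} [Field L] [CharZero L] [Module L R.N] [Module L R.M]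
  {S : ClassData R L} {Q : ℕ} {J : Type} [Fintype J] {c : J → ℕ} {D E : J → A.CH}

theorem tateOnto_iff (hF : IsFamily A c D) (h : IsDual A c D E) (hQ : Q ≠ 0)
    (hR : IsRel Q R) (hL : IsLinear R L) (hS : IsClassData S Q)
    (hcn : ∀ (j : ℤ), ∀ n ∈ S.cycN j, n ∈ S.galN j)
    (hexp : ∀ (i j : ℤ) (m : R.M), R.InvM Q i j m → m = ∑ t, R.times (D t) (R.pair (E t) m))
    (j : ℤ) : TateOnto (S.cycM j) (S.galM j) ↔
      ∀ k : ℕ, k ≤ A.dim → TateOnto (S.cycN (j - k)) (S.galN (j - k)) := by
  classical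
  unfold TateOnto
  simp only [range_naturalMap]
  obtain ⟨a, ha, hu, hv⟩ := hS.common h j
  have hmulL : ∀ (x : A.CH) (t : L) (n : R.N), R.times x (t • n) = t • R.times x n := hL.mul
  have hpushL : ∀ (x : A.CH) (t : L) (m : R.M), R.pair x (t • m) = t • R.pair x m := hL.push
  have hexp' : ∀ m ∈ S.galM j, m = ∑ t, R.times (D t) (R.pair (E t) m) := fun m hm =>
    hexp _ _ m (hS.frob j m hm)
  let u : J → R.N →ₗ[L] R.M := fun t =>
    { toFun := fun n => R.times (D t) n
      map_add' := fun x y => map_add _ _ _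
      map_smul' := fun l x => hmulL (D t) l x }
  let v : J → R.M →ₗ[L] R.N := fun t =>
    { toFun := fun m => R.pair (E t) m
      map_add' := fun x y => map_add _ _ _
      map_smul' := fun l x => hpushL (E t) l x }
  have hu' : ∀ t, Submodule.span L (S.cycN (j - c t) : Set R.N) ≤
      (Submodule.span L (S.cycM j : Set R.M)).comap (u t) := by
    intro t
    refine Submodule.span_le.2 fun n hn => ?_
    exact mem_of_nsmul (W := Submodule.span L (S.cycM j : Set R.M)) (x := R.times (D t) n) ha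
      (Submodule.subset_span (hu t n hn))
  have hv' : ∀ t, Submodule.span L (S.cycM j : Set R.M) ≤
      (Submodule.span L (S.cycN (j - c t) : Set R.N)).comap (v t) := by
    intro t
    refine Submodule.span_le.2 fun m hm => ?_
    exact mem_of_nsmul (W := Submodule.span L (S.cycN (j - c t) : Set R.N))
      (x := R.pair (E t) m) ha (Submodule.subset_span (hv t m hm))
  constructor
  · intro h1 k hk
    obtain ⟨t, rfl⟩ := hF.exists_eq k hk
    apply le_antisymm
    · exact Submodule.span_le.2 fun n hn => hcn _ n hn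
    · intro w hw
      have h4 := hS.mul_gal (h.left t) (j - c t) w hw
      rw [sub_add_cancel, ← h1] at h4
      have h5 := hv' t h4
      rw [Submodule.mem_comap] at h5
      change R.pair (E t) (R.times (D t) w) ∈ _ at h5
      rwa [dualpair hR h t t, if_pos rfl] at h5
  · intro h1
    apply le_antisymm
    · exact Submodule.span_le.2 fun m hm => hS.cyc_gal j m hm
    · intro m hm
      rw [hexp' m hm]
      refine Submodule.sum_mem _ fun t _ => ?_
      have h4 := hS.push_gal (Nat.add_sub_of_le (h.le t)) (h.right t) j m hm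
      rw [← h1 (c t) (h.le t)] at h4
      exact hu' t h4

end onto

theorem reindex₁ (d : ℕ) (X : ℤ → Prop) (b : ℤ) :
    (∀ k : ℕ, k ≤ d → X (d - b - k)) ↔ ∀ l : ℕ, l ≤ d → X (-(b - l)) := by
  constructor
  · intro h l hl
    have h1 := h (d - l) (Nat.sub_le _ _)
    rw [Nat.cast_sub hl] at h1
    rwa [show ((d : ℤ) - b - (d - l)) = -(b - l) by ring] at h1
  · intro h k hk
    have h1 := h (d - k) (Nat.sub_le _ _)
    rw [Nat.cast_sub hk] at h1
    rwa [show (-(b - ((d : ℤ) - k))) = d - b - k by ring] at h1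

section main

variable {P : ℚ[X] → Prop} {q : ℕ} (hq : 1 < q) {I : Type} {F : I → ℤ[X]} (hG : Good P q F)

include hq hG

theorem singularTateReduces : SingularTateReduces P q F := by
  intro K _ _ A s hA R L _ _ _ _ hR hpd hP hL S hS hcn b
  obtain ⟨J, hJ, c, D, E', hF, hdual, hQ, hmain⟩ := exists_classes hq hG hA
  have hexp : ∀ (i j : ℤ) (m : R.M), R.InvM (q ^ s) i j m →
      m = ∑ t, R.times (D t) (R.pair (E' t) m) :=
    fun i j m hm => (hmain R hR hpd hP i j m (genM_of_inv hm)).1
  constructor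
  · rw [tateOnto_iff hF hdual hQ hR hL hS hcn hexp,
      reindex₁ A.dim (fun j => TateOnto (S.cycN j) (S.galN j)) b]
  · rw [tateIso_iff hF hdual hQ hR hL hS hexp,
      reindex₁ A.dim (fun j => TateIso (S.cycN j) (S.galN j)) b]

theorem poleReduces : PoleReduces P q F := by
  intro K _ _ A s hA T R L _ _ _ _ hT hpure hR hL hfin hbd n
  obtain ⟨J, hJ, c, D, E', hF, h, hQ, hmain⟩ := exists_classes hq hG hA
  have hexpT : ∀ (i j : ℤ), ∀ m ∈ T.grM i j, m = ∑ t, T.times (D t) (T.pair (E' t) m) :=
    fun i j m hm =>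
      (hmain T hT.rel hT.degree hT.eigenvalues i j m (genM_of_inv (hpure i j m hm))).1
  have hexpR : ∀ (i j : ℤ) (m : R.M), GenM (q ^ s) R i j m →
      m = ∑ t, R.times (D t) (R.pair (E' t) m) :=
    fun i j m hm => (hmain R hR.rel hR.degree hR.eigenvalues i j m hm).1
  obtain ⟨t0, ht0⟩ := hF.exists_eq 0 (Nat.zero_le _)
  obtain ⟨e, he⟩ := hbd
  have e1 : ∀ (j : ℤ) (t : J), 2 * (j - c t) = 2 * j - 2 * (c t : ℤ) := fun j t => by ring
  have key := top_down c t0 ht0 (fun j => Module.Finite ℚ (T.grN (2 * j) j))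
    (fun j => Module.Finite ℚ (T.grM (2 * j) j))
    (fun j => (finrank ℚ (T.grN (2 * j) j) : ℤ))
    (fun j => (multN (q ^ s) R L (2 * j) j : ℤ))
    (fun j => (finrank ℚ (T.grM (2 * j) j) : ℤ))
    (fun j => (multM (q ^ s) R L (2 * j) j : ℤ))
    (fun j => by
      have h1 := finite_gr h hT.rel hexpT (2 * j) j
      refine h1.trans (forall_congr' fun t => ?_)
      rw [e1])
    (fun j hj => by
      have h1 := finrank_gr h hT.rel hexpT (2 * j) j
        ((finite_gr h hT.rel hexpT (2 * j) j).1 hj)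
      beta_reduce
      rw [h1, Nat.cast_sum]
      exact Finset.sum_congr rfl fun t _ => by rw [e1])
    (fun j => by
      have h1 := multM_eq hQ h hR.rel hL hfin hexpR (2 * j) j
      beta_reduce
      rw [h1, Nat.cast_sum]
      exact Finset.sum_congr rfl fun t _ => by rw [e1])
    (-e) (fun j hj => by
      obtain ⟨h1, h2⟩ := he (-j) (by omega)
      rw [show (-(2 * -j)) = 2 * j by ring, neg_neg] at h1 h2
      have h5 : T.grN (2 * j) j = ⊥ := (Submodule.eq_bot_iff _).2 fun x hx => h1 x hx
      have h6 : eigN (q ^ s) R L (2 * j) j = ⊥ := by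
        rw [eigN, Submodule.span_eq_bot]
        exact fun x hx => h2 x hx.1
      refine ⟨?_, ?_⟩
      · rw [h5]
        infer_instance
      · rw [multN, h5, h6, finrank_bot, finrank_bot]) (-n)
  have hN : ∀ b : ℤ, PoleFormulaN (q ^ s) T R L b ↔ (Module.Finite ℚ (T.grN (2 * -b) (-b)) ∧
      (finrank ℚ (T.grN (2 * -b) (-b)) : ℤ) = (multN (q ^ s) R L (2 * -b) (-b) : ℤ)) := by
    intro b
    rw [PoleFormulaN, show (-(2 * b)) = 2 * -b by ring, Nat.cast_inj]
  have hM : ∀ b : ℤ, PoleFormulaM (q ^ s) T R L b ↔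
      (Module.Finite ℚ (T.grM (2 * (A.dim - b)) (A.dim - b)) ∧
        (finrank ℚ (T.grM (2 * (A.dim - b)) (A.dim - b)) : ℤ) =
          (multM (q ^ s) R L (2 * (A.dim - b)) (A.dim - b) : ℤ)) := by
    intro b
    rw [PoleFormulaM, show (2 * (A.dim : ℤ) - 2 * b) = 2 * (A.dim - b) by ring, Nat.cast_inj]
  simp only [hN, hM]
  constructor
  · intro h1 b hb
    refine key.1 (fun j hj => ?_) (-b) (by omega)
    have h2 := h1 (A.dim - j) (by omega)
    rwa [sub_sub_cancel] at h2
  · intro h1 b hb
    refine key.2 (fun j hj => ?_) (A.dim - b) (by omega)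
    have h2 := h1 (-j) (by omega)
    rwa [neg_neg] at h2

end main

end Pool.Agent.Q64.M
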